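import Mathlib

set_option autoImplicit false

/-!
# Mixed volume, condition (P), tropical solutions: definitions
-/

namespace Pool.Agent.H99.MV

open scoped Pointwise

section General

variable {ι : Type} [Fintype ι] [DecidableEq ι]

/-- The scalar product of an integer vector and a real vector. -/
def ip (a : ι → ℤ) (x : ι → ℝ) : ℝ := ∑ i, (a i : ℝ) * x i

/-- The integer vector `a` as a real vector. -/
def toR (a : ι → ℤ) : ι → ℝ := fun i => (a i : ℝ)

/-- The convex hull (in real space) of a finite set of integer points. -/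
def hull (A : Finset (ι → ℤ)) : Set (ι → ℝ) := convexHull ℝ (toR '' (A : Set (ι → ℤ)))

/-- `HasMV A v`: the volume of `∑ λ_j conv A_j` is a polynomial in `λ ≥ 0` whose coefficient at
`∏ λ_j` is `v`; here there are as many sets as coordinates. -/
def HasMV (A : ι → Finset (ι → ℤ)) (v : ℝ) : Prop :=
  ∃ p : MvPolynomial ι ℝ,
    (∀ lam : ι → ℝ, (∀ j, 0 ≤ lam j) →
      (MeasureTheory.volume (∑ j, lam j • hull (A j))).toReal = MvPolynomial.eval lam p) ∧
    p.coeff (Finsupp.equivFunOnFinite.symm fun _ => 1) = v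

/-- The integer matrix with rows `a j - b j`. -/
def dif (a b : ι → ι → ℤ) : Matrix ι ι ℤ := Matrix.of fun j => a j - b j

/-- `x` is a tropical solution of the system with supports `A j` and weights `w j`: for every `j`
the maximum of `w_j(c) + ⟨c, x⟩` over `c ∈ A_j` is attained exactly at `a_j` and `b_j`, and the
vectors `a_j - b_j` are linearly independent. -/
structure Sol (A : ι → Finset (ι → ℤ)) (w : ι → (ι → ℤ) → ℝ) (a b : ι → ι → ℤ)
    (x : ι → ℝ) : Prop where
  memA : ∀ j, a j ∈ A j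
  memB : ∀ j, b j ∈ A j
  eq : ∀ j, w j (a j) + ip (a j) x = w j (b j) + ip (b j) x
  lt : ∀ j, ∀ c ∈ A j, c ≠ a j → c ≠ b j → w j c + ip c x < w j (a j) + ip (a j) x
  det : (dif a b).det ≠ 0

/-- Every tropical system with supports `A j` has at most one solution, and it has
multiplicity 1. -/
def TU (A : ι → Finset (ι → ℤ)) : Prop :=
  ∀ (w : ι → (ι → ℤ) → ℝ) (a b : ι → ι → ℤ) (x : ι → ℝ) (a' b' : ι → ι → ℤ) (y : ι → ℝ),
    Sol A w a b x → Sol A w a' b' y → x = y ∧ |(dif a b).det| = 1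

/-- The digraph of the tuple is strongly connected: there is an arc `l → i` if some `a ∈ A l`
has `a i ≠ 0`. -/
def SC (A : ι → Finset (ι → ℤ)) : Prop :=
  ∀ J : Set ι, J.Nonempty → J ≠ Set.univ → ∃ l ∈ J, ∃ a ∈ A l, ∃ i, i ∉ J ∧ a i ≠ 0

end General

section Problem

variable {k n : ℕ}

/-- The dimension over `ℚ` of the span of the `A j`, `j ∈ J`. -/
noncomputable def dimSpan (A : Fin k → Finset (Fin n → ℤ)) (J : Finset (Fin k)) : ℕ :=
  Module.finrank ℚ (Submodule.span ℚ {v : Fin n → ℚ | ∃ j ∈ J, ∃ a ∈ A j, v = fun i => (a i : ℚ)})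

/-- The real span `V` of the `A j`, `j ∈ J`. -/
def realSpan (A : Fin k → Finset (Fin n → ℤ)) (J : Finset (Fin k)) : Submodule ℝ (Fin n → ℝ) :=
  Submodule.span ℝ {v : Fin n → ℝ | ∃ j ∈ J, ∃ a ∈ A j, v = toR a}

/-- `b` is a `ℤ`-basis of the lattice `V ∩ ℤ^n`. -/
def IsLatticeBasis (A : Fin k → Finset (Fin n → ℤ)) (J : Finset (Fin k))
    (b : J → Fin n → ℤ) : Prop :=
  LinearIndependent ℤ b ∧
    ∀ v : Fin n → ℤ, toR v ∈ realSpan A J ↔ v ∈ Submodule.span ℤ (Set.range b)

/-- The mixed volume of the `conv A j`, `j ∈ J`, with respect to the lattice `V ∩ ℤ^n`, is `v`: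
for a `ℤ`-basis `b` of this lattice (with `|J|` elements) the volume of
`{x | ∑ x_j b_j ∈ ∑ λ_j conv A_j}` is a polynomial in `λ ≥ 0` whose coefficient at `∏ λ_j` is
`v`. -/
def HasMixedVolume (A : Fin k → Finset (Fin n → ℤ)) (J : Finset (Fin k)) (v : ℝ) : Prop :=
  ∃ b : J → Fin n → ℤ, IsLatticeBasis A J b ∧ ∃ p : MvPolynomial J ℝ,
    (∀ lam : J → ℝ, (∀ j, 0 ≤ lam j) →
      (MeasureTheory.volume {x : J → ℝ | ∑ j, x j • toR (b j) ∈
        ∑ j : J, lam j • hull (A j)}).toReal = MvPolynomial.eval lam p) ∧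
    p.coeff (Finsupp.equivFunOnFinite.symm fun _ => 1) = v

/-- Condition (P). -/
def CondP (A : Fin k → Finset (Fin n → ℤ)) : Prop :=
  ∀ J : Finset (Fin k), J.Nonempty →
    J.card + 1 ≤ dimSpan A J ∨ (dimSpan A J = J.card ∧ HasMixedVolume A J 1)

end Problem

end Pool.Agent.H99.MV
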