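import Pool.Agent.H99.MV.HDefs

set_option autoImplicit false
set_option linter.unusedSectionVars false

/-!
# I.2 The determinant of a sum of rank one matrices (Cauchy-Binet)

PROOF. Row `r` of `∑ e ∈ s, w e • vecMulVec (d e) (d e)` is `∑ e ∈ s, (w e * d e r) • d e`. The
determinant is multilinear in the rows: `det = ∑ τ ∈ piFinset (fun _ => s), (∏ r, w (τ r) * d (τ r) r)
* det (of fun r => d (τ r))` (`MultilinearMap.map_sum_finset` for `Matrix.detRowAlternating`, then
`map_smul_univ`). For a permutation `σ` replace `τ` by `τ ∘ σ` (a bijection of the `piFinset`):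
`det (of fun r => d (τ (σ r))) = sign σ * det (of fun r => d (τ r))`,
`∏ r, w (τ (σ r)) = ∏ r, w (τ r)`. Sum over all `n!` permutations:
`∑ σ, sign σ * ∏ r, d (τ (σ r)) r = det (of fun r => d (τ r))` (`Matrix.det_apply`, for the
transposed or inverse permutation).
-/

namespace Pool.Agent.H99.MV

variable {ι : Type} [Fintype ι] [DecidableEq ι]

theorem det_sum_rankOne {E : Type} [DecidableEq E] (s : Finset E) (w : E → ℝ)
    (d : E → ι → ℝ) :
    ((Fintype.card ι).factorial : ℝ) *
        (∑ e ∈ s, w e • Matrix.vecMulVec (d e) (d e)).det =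
      ∑ τ ∈ Fintype.piFinset (fun _ : ι => s),
        (∏ r, w (τ r)) * (Matrix.of fun r => d (τ r)).det ^ 2 := by
  classical
  have h1 : (∑ e ∈ s, w e • Matrix.vecMulVec (d e) (d e)).det =
      ∑ τ ∈ Fintype.piFinset (fun _ : ι => s),
        (∏ r, w (τ r) * d (τ r) r) * (Matrix.of fun r => d (τ r)).det := by
    have h2 : (∑ e ∈ s, w e • Matrix.vecMulVec (d e) (d e)) =
        (fun r => ∑ e ∈ s, (w e * d e r) • d e : ι → ι → ℝ) := by
      ext r c
      simp only [Matrix.sum_apply, Matrix.smul_apply, Matrix.vecMulVec_apply, smul_eq_mul,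
        Finset.sum_apply, Pi.smul_apply]
      exact Finset.sum_congr rfl fun e _ => by ring
    rw [h2]
    show (Matrix.detRowAlternating (n := ι) (R := ℝ)).toMultilinearMap _ = _
    rw [MultilinearMap.map_sum_finset]
    refine Finset.sum_congr rfl fun τ _ => ?_
    rw [MultilinearMap.map_smul_univ, smul_eq_mul]
    rfl
  have h3 : ∀ σ : Equiv.Perm ι, (∑ e ∈ s, w e • Matrix.vecMulVec (d e) (d e)).det =
      ∑ τ ∈ Fintype.piFinset (fun _ : ι => s),
        (∏ r, w (τ (σ r)) * d (τ (σ r)) r) * (Matrix.of fun r => d (τ (σ r))).det := by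
    intro σ
    rw [h1]
    refine (Finset.sum_bij' (fun τ _ => fun r => τ (σ r)) (fun τ _ => fun r => τ (σ.symm r))
      ?_ ?_ ?_ ?_ ?_).symm
    · intro τ hτ
      rw [Fintype.mem_piFinset] at hτ ⊢
      exact fun r => hτ _
    · intro τ hτ
      rw [Fintype.mem_piFinset] at hτ ⊢
      exact fun r => hτ _
    · intro τ _; funext r; simp
    · intro τ _; funext r; simp
    · intro τ _; rfl
  have h4 : ((Fintype.card ι).factorial : ℝ) *
      (∑ e ∈ s, w e • Matrix.vecMulVec (d e) (d e)).det =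
      ∑ σ : Equiv.Perm ι, (∑ e ∈ s, w e • Matrix.vecMulVec (d e) (d e)).det := by
    rw [Finset.sum_const, Finset.card_univ, Fintype.card_perm, nsmul_eq_mul]
  rw [h4, Finset.sum_congr rfl fun σ _ => h3 σ, Finset.sum_comm]
  refine Finset.sum_congr rfl fun τ _ => ?_
  have h8 : (∏ r, w (τ r)) * (Matrix.of fun r => d (τ r)).det ^ 2 =
      ∑ σ : Equiv.Perm ι, (∏ r, w (τ r)) * (Matrix.of fun r => d (τ r)).det *
        (Equiv.Perm.sign σ • ∏ i, (Matrix.of fun r => d (τ r)) (σ i) i) := by
    rw [← Finset.mul_sum, ← Matrix.det_apply]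
    ring
  rw [h8]
  refine Finset.sum_congr rfl fun σ _ => ?_
  have h5 : (Matrix.of fun r => d (τ (σ r))).det =
      (Equiv.Perm.sign σ : ℝ) * (Matrix.of fun r => d (τ r)).det := by
    rw [← Matrix.det_permute]
    rfl
  rw [h5, Finset.prod_mul_distrib]
  have h6 : ∏ r, w (τ (σ r)) = ∏ r, w (τ r) := Equiv.prod_comp σ fun r => w (τ r)
  rw [h6]
  simp only [Matrix.of_apply, Units.smul_def, zsmul_eq_mul]
  ring

end Pool.Agent.H99.MV
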