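import Pool.Agent.H99.MV.Defs

set_option autoImplicit false
set_option linter.unusedSectionVars false

/-!
# Log-sum-exp functions: definitions
-/

namespace Pool.Agent.H99.MV

variable {ι : Type} [Fintype ι] [DecidableEq ι]

omit [Fintype ι] [DecidableEq ι] in
theorem exists_ev [Finite ι] : ∃ f : (ι → ℤ) → ℕ, Function.Injective f :=
  exists_injective_nat _

/-- An arbitrary numbering of the integer vectors. -/
noncomputable def ev (a : ι → ℤ) : ℕ := (exists_ev (ι := ι)).choose a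

theorem ev_injective : Function.Injective (ev (ι := ι)) := (exists_ev (ι := ι)).choose_spec

/-- The unordered pairs of distinct points of `A`, each represented by one ordered pair. -/
noncomputable def pairs (A : Finset (ι → ℤ)) : Finset ((ι → ℤ) × (ι → ℤ)) :=
  (A ×ˢ A).filter fun e => ev e.1 < ev e.2

theorem mem_pairs {A : Finset (ι → ℤ)} {e : (ι → ℤ) × (ι → ℤ)} :
    e ∈ pairs A ↔ e.1 ∈ A ∧ e.2 ∈ A ∧ ev e.1 < ev e.2 := by
  simp [pairs, and_assoc]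

/-- `Z(u) = ∑ θ(a) e^⟨a,u⟩`. -/
noncomputable def zf (A : Finset (ι → ℤ)) (θ : (ι → ℤ) → ℝ) (u : ι → ℝ) : ℝ :=
  ∑ a ∈ A, θ a * Real.exp (ip a u)

/-- `p_a(u) = θ(a) e^⟨a,u⟩ / Z(u)`. -/
noncomputable def pf (A : Finset (ι → ℤ)) (θ : (ι → ℤ) → ℝ) (a : ι → ℤ) (u : ι → ℝ) : ℝ :=
  θ a * Real.exp (ip a u) / zf A θ u

/-- The gradient of `log Z`. -/
noncomputable def grad (A : Finset (ι → ℤ)) (θ : (ι → ℤ) → ℝ) (u : ι → ℝ) : ι → ℝ :=
  ∑ a ∈ A, pf A θ a u • toR a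

/-- The gradient of `∑ λ_j log Z_j`. -/
noncomputable def Psi (A : ι → Finset (ι → ℤ)) (θ : ι → (ι → ℤ) → ℝ) (lam : ι → ℝ)
    (u : ι → ℝ) : ι → ℝ :=
  ∑ j, lam j • grad (A j) (θ j) u

/-- The real vector `e.1 - e.2`. -/
def dv (e : (ι → ℤ) × (ι → ℤ)) : ι → ℝ := toR e.1 - toR e.2

/-- The Hessian of `log Z`. -/
noncomputable def hess (A : Finset (ι → ℤ)) (θ : (ι → ℤ) → ℝ) (u : ι → ℝ) : Matrix ι ι ℝ :=
  ∑ e ∈ pairs A, (pf A θ e.1 u * pf A θ e.2 u) • Matrix.vecMulVec (dv e) (dv e)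

/-- The Hessian of `∑ λ_j log Z_j`. -/
noncomputable def H (A : ι → Finset (ι → ℤ)) (θ : ι → (ι → ℤ) → ℝ) (lam : ι → ℝ)
    (u : ι → ℝ) : Matrix ι ι ℝ :=
  ∑ j, lam j • hess (A j) (θ j) u

/-- The integral formula for the mixed volume. -/
noncomputable def MVI (A : ι → Finset (ι → ℤ)) (θ : ι → (ι → ℤ) → ℝ) : ℝ :=
  ∑ e ∈ Fintype.piFinset (fun j => pairs (A j)),
    (Matrix.of fun j => dv (e j)).det ^ 2 *
      ∫ u : ι → ℝ, ∏ j, pf (A j) (θ j) (e j).1 u * pf (A j) (θ j) (e j).2 u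

theorem zf_pos {A : Finset (ι → ℤ)} (hA : A.Nonempty) {θ : (ι → ℤ) → ℝ} (hθ : ∀ a, 0 < θ a)
    (u : ι → ℝ) : 0 < zf A θ u :=
  Finset.sum_pos (fun a _ => mul_pos (hθ a) (Real.exp_pos _)) hA

theorem pf_pos {A : Finset (ι → ℤ)} (hA : A.Nonempty) {θ : (ι → ℤ) → ℝ} (hθ : ∀ a, 0 < θ a)
    (a : ι → ℤ) (u : ι → ℝ) : 0 < pf A θ a u :=
  div_pos (mul_pos (hθ a) (Real.exp_pos _)) (zf_pos hA hθ u)

theorem sum_pf {A : Finset (ι → ℤ)} (hA : A.Nonempty) {θ : (ι → ℤ) → ℝ} (hθ : ∀ a, 0 < θ a)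
    (u : ι → ℝ) : ∑ a ∈ A, pf A θ a u = 1 := by
  simp only [pf]
  rw [← Finset.sum_div]
  exact div_self (zf_pos hA hθ u).ne'

end Pool.Agent.H99.MV
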